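import Mathlib

/-!
# Evaluating a quantified Boolean formula with a binary counter

`M` quantifiers, `Q j = true` means that the `j`-th quantifier is universal.  A state consists of
the counter `b : ℕ → Bool` and of one slot per level.
-/

set_option autoImplicit false

open Function

namespace Pool.Agent.Helper73.Mix

/-- The truth value of `Q_j x_j ... Q_(j+n-1) x_(j+n-1) leaf(x)`, where the other bits of `x` are
those of `b`. -/
def tv (Q : ℕ → Bool) (leaf : (ℕ → Bool) → Bool) : ℕ → ℕ → (ℕ → Bool) → Bool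
  | _, 0, b => leaf b
  | j, n + 1, b =>
    if Q j then tv Q leaf (j + 1) n (update b j false) && tv Q leaf (j + 1) n (update b j true)
    else tv Q leaf (j + 1) n (update b j false) || tv Q leaf (j + 1) n (update b j true)

/-- The truth value of the formula with `M` quantifiers. -/
def truth (M : ℕ) (Q : ℕ → Bool) (leaf : (ℕ → Bool) → Bool) : Bool :=
  tv Q leaf 0 M (fun _ => false)

/-- The value stored in the slots of the levels `j, ..., j + n - 1`. -/
def vl (Q : ℕ → Bool) (leaf : (ℕ → Bool) → Bool) (b sl : ℕ → Bool) : ℕ → ℕ → Bool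
  | _, 0 => leaf b
  | j, n + 1 => if sl j = Q j then vl Q leaf b sl (j + 1) n else sl j

/-- `val b sl j`: the least slot `j' ≥ j` (below `M`) that differs from `Q j'`, or else the leaf. -/
def val (M : ℕ) (Q : ℕ → Bool) (leaf : (ℕ → Bool) → Bool) (b sl : ℕ → Bool) (j : ℕ) : Bool :=
  vl Q leaf b sl j (M - j)

theorem val_of_lt {M : ℕ} {Q : ℕ → Bool} {leaf : (ℕ → Bool) → Bool} {b sl : ℕ → Bool} {j : ℕ}
    (hj : j < M) : val M Q leaf b sl j =
      if sl j = Q j then val M Q leaf b sl (j + 1) else sl j := by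
  have : M - j = (M - (j + 1)) + 1 := by omega
  unfold val
  rw [this]
  rfl

theorem val_of_le {M : ℕ} {Q : ℕ → Bool} {leaf : (ℕ → Bool) → Bool} {b sl : ℕ → Bool} {j : ℕ}
    (hj : M ≤ j) : val M Q leaf b sl j = leaf b := by
  have : M - j = 0 := by omega
  unfold val
  rw [this]
  rfl

theorem val_eq_leaf {M : ℕ} {Q : ℕ → Bool} {leaf : (ℕ → Bool) → Bool} {b sl : ℕ → Bool} {j : ℕ}
    (h : ∀ i, j ≤ i → i < M → sl i = Q i) : val M Q leaf b sl j = leaf b := by
  by_cases hj : j < M
  · obtain ⟨n, hn⟩ : ∃ n, M = j + n := ⟨M - j, by omega⟩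
    clear hj
    induction n generalizing j with
    | zero => exact val_of_le (by omega)
    | succ n ih =>
      rw [val_of_lt (by omega), if_pos (h j le_rfl (by omega))]
      exact ih (fun i hi hiM => h i (by omega) hiM) (by omega)
  · exact val_of_le (by omega)

theorem val_eq_slot {M : ℕ} {Q : ℕ → Bool} {leaf : (ℕ → Bool) → Bool} {b sl : ℕ → Bool} {j j' : ℕ}
    (h1 : j ≤ j') (h2 : j' < M) (h3 : sl j' ≠ Q j') (h4 : ∀ i, j ≤ i → i < j' → sl i = Q i) :
    val M Q leaf b sl j = sl j' := by
  obtain ⟨n, rfl⟩ : ∃ n, j' = j + n := ⟨j' - j, by omega⟩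
  clear h1
  induction n generalizing j with
  | zero =>
    rw [val_of_lt (by omega)]
    exact if_neg h3
  | succ n ih =>
    rw [val_of_lt (by omega), if_pos (h4 j le_rfl (by omega))]
    have e : j + (n + 1) = (j + 1) + n := by omega
    rw [e] at h2 h3 ⊢
    exact ih h2 h3 (fun i hi hin => h4 i (by omega) (by omega))

/-- the counter after an increment at position `s` -/
def incr (M s : ℕ) (b : ℕ → Bool) : ℕ → Bool := fun i =>
  if i < s then b i else if i = s then true else if i < M then false else b i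

/-- A step: if `s` is the greatest position `< M` with `b s = false`, increment the counter and put
the value of level `s + 1` into slot `s`. -/
def stp (M : ℕ) (Q : ℕ → Bool) (leaf : (ℕ → Bool) → Bool) (x : (ℕ → Bool) × (ℕ → Bool)) :
    (ℕ → Bool) × (ℕ → Bool) :=
  if x.1 (Nat.findGreatest (fun i => i < M ∧ x.1 i = false) M) = false ∧
      Nat.findGreatest (fun i => i < M ∧ x.1 i = false) M < M then
    (incr M (Nat.findGreatest (fun i => i < M ∧ x.1 i = false) M) x.1,
      update x.2 (Nat.findGreatest (fun i => i < M ∧ x.1 i = false) M)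
        (val M Q leaf x.1 x.2 (Nat.findGreatest (fun i => i < M ∧ x.1 i = false) M + 1)))
  else x

theorem findGreatest_eq {M s : ℕ} {b : ℕ → Bool} (hs : s < M) (h0 : b s = false)
    (h1 : ∀ i, s < i → i < M → b i = true) :
    Nat.findGreatest (fun i => i < M ∧ b i = false) M = s := by
  have hle : s ≤ Nat.findGreatest (fun i => i < M ∧ b i = false) M :=
    Nat.le_findGreatest hs.le ⟨hs, h0⟩
  have hsp := Nat.findGreatest_spec (P := fun i => i < M ∧ b i = false) hs.le ⟨hs, h0⟩
  by_contra hne
  have hlt : s < Nat.findGreatest (fun i => i < M ∧ b i = false) M :=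
    lt_of_le_of_ne hle (Ne.symm hne)
  have := h1 _ hlt hsp.1
  rw [hsp.2] at this
  exact Bool.false_ne_true this

theorem stp_eq {M s : ℕ} {Q : ℕ → Bool} {leaf : (ℕ → Bool) → Bool} {b sl : ℕ → Bool}
    (hs : s < M) (h0 : b s = false) (h1 : ∀ i, s < i → i < M → b i = true) :
    stp M Q leaf (b, sl) = (incr M s b, update sl s (val M Q leaf b sl (s + 1))) := by
  have e := findGreatest_eq hs h0 h1
  unfold stp
  simp only [e, h0, hs, and_self, if_true]

theorem stp_full {M : ℕ} {Q : ℕ → Bool} {leaf : (ℕ → Bool) → Bool} {b sl : ℕ → Bool}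
    (h : ∀ i, i < M → b i = true) : stp M Q leaf (b, sl) = (b, sl) := by
  unfold stp
  rw [if_neg]
  rintro ⟨h1, h2⟩
  exact Bool.false_ne_true (h1.symm.trans (h _ h2))

/-- The run on the levels `j, ..., M - 1`. -/
theorem run_levels (M : ℕ) (Q : ℕ → Bool) (leaf : (ℕ → Bool) → Bool) (n : ℕ) :
    ∀ (j : ℕ) (b sl : ℕ → Bool), j + n = M → (∀ i, j ≤ i → i < M → b i = false) →
      ∃ sl' : ℕ → Bool, (∀ i, i < j → sl' i = sl i) ∧
        (stp M Q leaf)^[2 ^ n - 1] (b, sl) =
          ((fun i => if j ≤ i ∧ i < M then true else b i), sl') ∧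
        val M Q leaf (fun i => if j ≤ i ∧ i < M then true else b i) sl' j = tv Q leaf j n b ∧
        ∀ k < 2 ^ n - 1, (∃ i, j ≤ i ∧ i < M ∧ ((stp M Q leaf)^[k] (b, sl)).1 i = false) ∧
          ∀ i, (i < j ∨ M ≤ i) → ((stp M Q leaf)^[k] (b, sl)).1 i = b i := by
  induction n with
  | zero =>
    intro j b sl hj _
    have e : (fun i => if j ≤ i ∧ i < M then true else b i) = b := by
      funext i
      rw [if_neg (by omega)]
    refine ⟨sl, fun _ _ => rfl, ?_, ?_, fun k hk => by simp at hk⟩
    · rw [e]; rfl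
    · rw [e, val_of_le (by omega)]; rfl
  | succ n ih =>
    intro j b sl hj hb
    have hjM : j < M := by omega
    -- first phase
    obtain ⟨sl1, h1a, h1b, h1c, h1d⟩ := ih (j + 1) b sl (by omega) (fun i hi hiM => hb i (by omega) hiM)
    set b1 : ℕ → Bool := fun i => if j + 1 ≤ i ∧ i < M then true else b i with hb1
    have hb1j : b1 j = false := by
      simp only [hb1]
      rw [if_neg (by omega)]
      exact hb j le_rfl hjM
    have hb1i : ∀ i, j < i → i < M → b1 i = true := by
      intro i hi hiM
      simp only [hb1]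
      rw [if_pos (by omega)]
    have hstep := stp_eq (Q := Q) (leaf := leaf) (sl := sl1) hjM hb1j hb1i
    -- second phase
    have hb2 : ∀ i, j + 1 ≤ i → i < M → (incr M j b1) i = false := by
      intro i hi hiM
      simp only [incr]
      rw [if_neg (by omega), if_neg (by omega), if_pos hiM]
    obtain ⟨sl2, h2a, h2b, h2c, h2d⟩ := ih (j + 1) (incr M j b1)
      (update sl1 j (val M Q leaf b1 sl1 (j + 1))) (by omega) hb2
    have hpow : 2 ^ (n + 1) - 1 = (2 ^ n - 1) + (1 + (2 ^ n - 1)) := by
      have : 1 ≤ 2 ^ n := Nat.one_le_two_pow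
      rw [pow_succ]
      omega
    have hfin : (fun i => if j + 1 ≤ i ∧ i < M then true else incr M j b1 i) =
        (fun i => if j ≤ i ∧ i < M then true else b i) := by
      funext i
      simp only [incr, hb1]
      by_cases h1 : j ≤ i ∧ i < M
      · rw [if_pos h1]
        by_cases h2 : j + 1 ≤ i
        · rw [if_pos ⟨h2, h1.2⟩]
        · rw [if_neg (by omega), if_neg (by omega), if_pos (by omega)]
      · rw [if_neg h1, if_neg (by omega)]
        by_cases h2 : i < j
        · rw [if_pos h2, if_neg (by omega)]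
        · rw [if_neg h2, if_neg (by omega), if_neg (by omega), if_neg (by omega)]
    have hupd0 : update b j false = b := by
      funext i
      by_cases hi : i = j
      · subst hi; rw [update_self, hb i le_rfl hjM]
      · rw [update_of_ne hi]
    have hupd1 : incr M j b1 = update b j true := by
      funext i
      simp only [incr, hb1]
      by_cases hi : i = j
      · subst hi
        rw [update_self, if_neg (by omega), if_pos rfl]
      · rw [update_of_ne hi]
        by_cases h2 : i < j
        · rw [if_pos h2, if_neg (by omega)]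
        · rw [if_neg h2, if_neg hi]
          by_cases h3 : i < M
          · rw [if_pos h3, hb i (by omega) h3]
          · rw [if_neg h3, if_neg (by omega)]
    have hrun1 : (stp M Q leaf)^[1 + (2 ^ n - 1)] (b, sl) =
        (incr M j b1, update sl1 j (val M Q leaf b1 sl1 (j + 1))) := by
      rw [Function.iterate_add_apply, h1b, Function.iterate_one]
      exact hstep
    refine ⟨sl2, ?_, ?_, ?_, ?_⟩
    · intro i hi
      rw [h2a i (by omega), update_of_ne (by omega), h1a i (by omega)]
    · rw [hpow, Function.iterate_add_apply, hrun1, h2b, hfin]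
    · rw [hfin] at h2c
      rw [val_of_lt hjM, h2c, h2a j (by omega), update_self, h1c]
      simp only [tv]
      rw [hupd0, hupd1]
      cases tv Q leaf (j + 1) n b <;> cases Q j <;>
        cases tv Q leaf (j + 1) n (update b j true) <;> rfl
    · intro k hk
      rcases lt_trichotomy k (2 ^ n - 1) with h | h | h
      · obtain ⟨⟨i, hi, hiM, hif⟩, hout⟩ := h1d k h
        exact ⟨⟨i, by omega, hiM, hif⟩, fun i hi => hout i (by omega)⟩
      · rw [h, h1b]
        refine ⟨⟨j, le_rfl, hjM, hb1j⟩, fun i hi => ?_⟩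
        simp only [hb1]
        rw [if_neg (by omega)]
      · obtain ⟨k', rfl⟩ : ∃ k', k = k' + (1 + (2 ^ n - 1)) := ⟨k - (1 + (2 ^ n - 1)), by omega⟩
        rw [Function.iterate_add_apply, hrun1]
        obtain ⟨⟨i, hi, hiM, hif⟩, hout⟩ := h2d k' (by omega)
        refine ⟨⟨i, by omega, hiM, hif⟩, fun i hi => ?_⟩
        rw [hout i (by omega), hupd1, update_of_ne (by omega)]

/-- **The counter evaluates the formula.** -/
theorem run_eval (M : ℕ) (Q : ℕ → Bool) (leaf : (ℕ → Bool) → Bool) (sl : ℕ → Bool) :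
    ∃ sl' : ℕ → Bool,
      (stp M Q leaf)^[2 ^ M - 1] (fun _ => false, sl) = ((fun i => decide (i < M)), sl') ∧
      val M Q leaf (fun i => decide (i < M)) sl' 0 = truth M Q leaf ∧
      ∀ k < 2 ^ M - 1,
        (∃ i, i < M ∧ ((stp M Q leaf)^[k] (fun _ => false, sl)).1 i = false) ∧
        ∀ i, M ≤ i → ((stp M Q leaf)^[k] (fun _ => false, sl)).1 i = false := by
  obtain ⟨sl', _, h2, h3, h4⟩ := run_levels M Q leaf M 0 (fun _ => false) sl (by omega)
    (fun _ _ _ => rfl)
  have e : (fun i => if 0 ≤ i ∧ i < M then true else (fun _ => false) i) =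
      (fun i => decide (i < M)) := by
    funext i
    by_cases h : i < M
    · simp [h]
    · simp [h]
  rw [e] at h2 h3
  refine ⟨sl', h2, h3, fun k hk => ?_⟩
  obtain ⟨⟨i, _, hiM, hif⟩, hout⟩ := h4 k hk
  exact ⟨⟨i, hiM, hif⟩, fun i hi => hout i (Or.inr hi)⟩

end Pool.Agent.Helper73.Mix
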