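import Mathlib
import Pool.Agent.Helper69.Mix.Recol
import Pool.Agent.Helper73.Mix.Eval

/-!
# Mixing as a quantified Boolean formula

Block `i` of the bits occupies the positions `i * (n * k + 1) + q`, `q ≤ n * k`; position
`v * k + c` of a block says that vertex `v` has colour `c`, position `n * k` is the selector.
-/

set_option autoImplicit false

open Function

namespace Pool.Agent.Helper73.Mix

open Pool.Agent.Helper69.Mix

section defs

variable (n k : ℕ) (G : SimpleGraph (Fin n)) (b : ℕ → Bool)

/-- bit of the pair (vertex `v`, colour `c`) in block `i` -/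
def colBit (i v c : ℕ) : Bool := b (i * (n * k + 1) + (v * k + c))

/-- the selector of block `i` -/
def selBit (i : ℕ) : Bool := b (i * (n * k + 1) + n * k)

/-- adjacency of natural numbers below `n` -/
def adjN (v w : ℕ) : Prop := ∃ (hv : v < n) (hw : w < n), G.Adj ⟨v, hv⟩ ⟨w, hw⟩

/-- block `i` is a proper colouring -/
def PB (i : ℕ) : Prop :=
  (∀ v < n, ∃ c < k, colBit n k b i v c = true ∧ ∀ c' < k, colBit n k b i v c' = true → c' = c) ∧
  ∀ v < n, ∀ w < n, adjN n G v w → ∀ c < k,
    ¬ (colBit n k b i v c = true ∧ colBit n k b i w c = true)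

/-- the blocks `x` and `y` differ in at most one vertex -/
def DB (x y : ℕ) : Prop :=
  ∃ v < n + 1, ∀ w < n, w ≠ v → ∀ c < k, colBit n k b x w c = colBit n k b y w c

/-- `x` is the last block `2 ≤ x < n * k + 2` whose selector is true, or `0` if there is none -/
def IsX (x : ℕ) : Prop :=
  (x = 0 ∧ ∀ i < n * k + 2, 2 ≤ i → selBit n k b i = false) ∨
  (2 ≤ x ∧ selBit n k b x = true ∧ ∀ i < n * k + 2, x < i → selBit n k b i = false)

/-- `y` is the last block `2 ≤ y < n * k + 2` whose selector is false, or `1` if there is none -/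
def IsY (y : ℕ) : Prop :=
  (y = 1 ∧ ∀ i < n * k + 2, 2 ≤ i → selBit n k b i = true) ∨
  (2 ≤ y ∧ selBit n k b y = false ∧ ∀ i < n * k + 2, y < i → selBit n k b i = true)

/-- the matrix of the formula -/
def Leaf : Prop :=
  PB n k G b 0 → PB n k G b 1 → ∃ x < n * k + 2, ∃ y < n * k + 2,
    IsX n k b x ∧ IsY n k b y ∧ PB n k G b x ∧ PB n k G b y ∧ DB n k b x y

open Classical in
/-- the matrix as a Boolean -/
noncomputable def leafB : Bool := decide (Leaf n k G b)

/-- the quantifiers -/
def QM (j : ℕ) : Bool := decide (j < 2 * (n * k + 1) ∨ j % (n * k + 1) = n * k)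

end defs

/-! ### Segments of equal quantifiers -/

theorem dec_eq {n k : ℕ} (A : Fin n → Fin k → Bool) (v : Fin n) (w : Fin k) {x y : ℕ}
    (hx : x = v) (hy : y = w) (h1 : x < n) (h2 : y < k) : A ⟨x, h1⟩ ⟨y, h2⟩ = A v w := by
  obtain ⟨v, hv⟩ := v
  obtain ⟨w, hw⟩ := w
  simp only at hx hy
  subst hx
  subst hy
  rfl

/-- overwrite the bits in `[j, j + a)` -/
def ovr (b : ℕ → Bool) (j a : ℕ) (c : ℕ → Bool) : ℕ → Bool :=
  fun i => if j ≤ i ∧ i < j + a then c i else b i

theorem ovr_zero (b : ℕ → Bool) (j : ℕ) (c : ℕ → Bool) : ovr b j 0 c = b := by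
  funext i
  unfold ovr
  rw [if_neg (by omega)]

theorem ovr_succ (b : ℕ → Bool) (j a : ℕ) (c : ℕ → Bool) :
    ovr (update b j (c j)) (j + 1) a c = ovr b j (a + 1) c := by
  funext i
  unfold ovr
  by_cases h1 : i = j
  · subst h1
    rw [if_neg (by omega), if_pos (by omega), update_self]
  · by_cases h2 : j + 1 ≤ i ∧ i < j + 1 + a
    · rw [if_pos h2, if_pos (by omega)]
    · rw [if_neg h2, if_neg (by omega), update_of_ne h1]

theorem tv_forall {Q : ℕ → Bool} {leaf : (ℕ → Bool) → Bool} (a : ℕ) :
    ∀ (j r : ℕ) (b : ℕ → Bool), (∀ i, j ≤ i → i < j + a → Q i = true) →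
      (tv Q leaf j (a + r) b = true ↔ ∀ c : ℕ → Bool, tv Q leaf (j + a) r (ovr b j a c) = true) := by
  induction a with
  | zero =>
    intro j r b _
    simp only [ovr_zero, Nat.zero_add, Nat.add_zero]
    exact ⟨fun h _ => h, fun h => h fun _ => false⟩
  | succ a ih =>
    intro j r b hQ
    have e : a + 1 + r = (a + r) + 1 := by omega
    rw [e]
    simp only [tv]
    rw [if_pos (hQ j le_rfl (by omega)), Bool.and_eq_true]
    rw [ih (j + 1) r _ (fun i hi hi' => hQ i (by omega) (by omega)),
      ih (j + 1) r _ (fun i hi hi' => hQ i (by omega) (by omega))]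
    have e2 : j + 1 + a = j + (a + 1) := by omega
    rw [e2]
    constructor
    · rintro ⟨h1, h2⟩ c
      cases hc : c j with
      | false =>
        have h3 := h1 c
        have e3 := ovr_succ b j a c
        rw [hc] at e3
        rw [e3] at h3
        exact h3
      | true =>
        have h3 := h2 c
        have e3 := ovr_succ b j a c
        rw [hc] at e3
        rw [e3] at h3
        exact h3
    · intro h
      constructor
      · intro c
        have := h (update c j false)
        rw [← ovr_succ, update_self] at this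
        convert this using 2
        funext i
        unfold ovr
        by_cases h1 : j + 1 ≤ i ∧ i < j + 1 + a
        · rw [if_pos h1, if_pos h1, update_of_ne (by omega)]
        · rw [if_neg h1, if_neg h1]
      · intro c
        have := h (update c j true)
        rw [← ovr_succ, update_self] at this
        convert this using 2
        funext i
        unfold ovr
        by_cases h1 : j + 1 ≤ i ∧ i < j + 1 + a
        · rw [if_pos h1, if_pos h1, update_of_ne (by omega)]
        · rw [if_neg h1, if_neg h1]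

theorem tv_exists {Q : ℕ → Bool} {leaf : (ℕ → Bool) → Bool} (a : ℕ) :
    ∀ (j r : ℕ) (b : ℕ → Bool), (∀ i, j ≤ i → i < j + a → Q i = false) →
      (tv Q leaf j (a + r) b = true ↔ ∃ c : ℕ → Bool, tv Q leaf (j + a) r (ovr b j a c) = true) := by
  induction a with
  | zero =>
    intro j r b _
    simp only [ovr_zero, Nat.zero_add, Nat.add_zero]
    exact ⟨fun h => ⟨fun _ => false, h⟩, fun ⟨_, h⟩ => h⟩
  | succ a ih =>
    intro j r b hQ
    have e : a + 1 + r = (a + r) + 1 := by omega
    rw [e]
    simp only [tv]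
    rw [if_neg (by rw [hQ j le_rfl (by omega)]; exact Bool.false_ne_true), Bool.or_eq_true]
    rw [ih (j + 1) r _ (fun i hi hi' => hQ i (by omega) (by omega)),
      ih (j + 1) r _ (fun i hi hi' => hQ i (by omega) (by omega))]
    have e2 : j + 1 + a = j + (a + 1) := by omega
    rw [e2]
    constructor
    · have key : ∀ x : Bool, (∃ c, tv Q leaf (j + (a + 1)) r (ovr (update b j x) (j + 1) a c) = true) →
          ∃ c, tv Q leaf (j + (a + 1)) r (ovr b j (a + 1) c) = true := by
        rintro x ⟨c, hc⟩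
        refine ⟨update c j x, ?_⟩
        rw [← ovr_succ, update_self]
        convert hc using 2
        funext i
        unfold ovr
        by_cases h1 : j + 1 ≤ i ∧ i < j + 1 + a
        · rw [if_pos h1, if_pos h1, update_of_ne (by omega)]
        · rw [if_neg h1, if_neg h1]
      rintro (h | h)
      · exact key _ h
      · exact key _ h
    · rintro ⟨c, hc⟩
      rw [← ovr_succ] at hc
      cases h : c j with
      | false => rw [h] at hc; exact Or.inl ⟨c, hc⟩
      | true => rw [h] at hc; exact Or.inr ⟨c, hc⟩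

/-! ### The last selected blocks -/

section sel

variable (n k : ℕ) (b : ℕ → Bool)

/-- the current left end after `t` selectors -/
def xb : ℕ → ℕ
  | 0 => 0
  | t + 1 => if selBit n k b (t + 2) = true then t + 2 else xb t

/-- the current right end after `t` selectors -/
def yb : ℕ → ℕ
  | 0 => 1
  | t + 1 => if selBit n k b (t + 2) = true then yb t else t + 2

theorem xb_spec (t : ℕ) : (xb n k b t = 0 ∧ ∀ i < t + 2, 2 ≤ i → selBit n k b i = false) ∨
    (2 ≤ xb n k b t ∧ xb n k b t < t + 2 ∧ selBit n k b (xb n k b t) = true ∧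
      ∀ i < t + 2, xb n k b t < i → selBit n k b i = false) := by
  induction t with
  | zero => exact Or.inl ⟨rfl, fun i hi hi' => by omega⟩
  | succ t ih =>
    by_cases h : selBit n k b (t + 2) = true
    · have e : xb n k b (t + 1) = t + 2 := by simp only [xb, if_pos h]
      rw [e]
      exact Or.inr ⟨by omega, by omega, h, fun i hi hi' => by omega⟩
    · have e : xb n k b (t + 1) = xb n k b t := by simp only [xb, if_neg h]
      rw [e]
      have h' : selBit n k b (t + 2) = false := by simpa using h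
      rcases ih with ⟨h1, h2⟩ | ⟨h1, h2, h3, h4⟩
      · refine Or.inl ⟨h1, fun i hi hi' => ?_⟩
        by_cases hit : i = t + 2
        · rw [hit]; exact h'
        · exact h2 i (by omega) hi'
      · refine Or.inr ⟨h1, by omega, h3, fun i hi hi' => ?_⟩
        by_cases hit : i = t + 2
        · rw [hit]; exact h'
        · exact h4 i (by omega) hi'

theorem yb_spec (t : ℕ) : (yb n k b t = 1 ∧ ∀ i < t + 2, 2 ≤ i → selBit n k b i = true) ∨
    (2 ≤ yb n k b t ∧ yb n k b t < t + 2 ∧ selBit n k b (yb n k b t) = false ∧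
      ∀ i < t + 2, yb n k b t < i → selBit n k b i = true) := by
  induction t with
  | zero => exact Or.inl ⟨rfl, fun i hi hi' => by omega⟩
  | succ t ih =>
    by_cases h : selBit n k b (t + 2) = true
    · have e : yb n k b (t + 1) = yb n k b t := by simp only [yb, if_pos h]
      rw [e]
      rcases ih with ⟨h1, h2⟩ | ⟨h1, h2, h3, h4⟩
      · refine Or.inl ⟨h1, fun i hi hi' => ?_⟩
        by_cases hit : i = t + 2
        · rw [hit]; exact h
        · exact h2 i (by omega) hi'
      · refine Or.inr ⟨h1, by omega, h3, fun i hi hi' => ?_⟩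
        by_cases hit : i = t + 2
        · rw [hit]; exact h
        · exact h4 i (by omega) hi'
    · have e : yb n k b (t + 1) = t + 2 := by simp only [yb, if_neg h]
      have h' : selBit n k b (t + 2) = false := by simpa using h
      rw [e]
      exact Or.inr ⟨by omega, by omega, h', fun i hi hi' => by omega⟩

theorem xb_lt (t : ℕ) : xb n k b t < t + 2 := by
  rcases xb_spec n k b t with h | h
  · omega
  · exact h.2.1

theorem yb_lt (t : ℕ) : yb n k b t < t + 2 := by
  rcases yb_spec n k b t with h | h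
  · omega
  · exact h.2.1

theorem isX_iff (x : ℕ) (hx : x < n * k + 2) : IsX n k b x ↔ x = xb n k b (n * k) := by
  constructor
  · intro h
    rcases xb_spec n k b (n * k) with ⟨h1, h2⟩ | ⟨h1, h2, h3, h4⟩
    · rcases h with ⟨h5, _⟩ | ⟨h5, h6, _⟩
      · rw [h5, h1]
      · rw [h2 x hx h5] at h6
        exact absurd h6 Bool.false_ne_true
    · rcases h with ⟨_, h6⟩ | ⟨h5, h6, h7⟩
      · rw [h6 _ h2 h1] at h3
        exact absurd h3 Bool.false_ne_true
      · rcases lt_trichotomy x (xb n k b (n * k)) with h8 | h8 | h8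
        · rw [h7 _ h2 h8] at h3
          exact absurd h3 Bool.false_ne_true
        · exact h8
        · rw [h4 x hx h8] at h6
          exact absurd h6 Bool.false_ne_true
  · rintro rfl
    rcases xb_spec n k b (n * k) with h | ⟨h1, _, h3, h4⟩
    · exact Or.inl h
    · exact Or.inr ⟨h1, h3, h4⟩

theorem isY_iff (y : ℕ) (hy : y < n * k + 2) : IsY n k b y ↔ y = yb n k b (n * k) := by
  constructor
  · intro h
    rcases yb_spec n k b (n * k) with ⟨h1, h2⟩ | ⟨h1, h2, h3, h4⟩
    · rcases h with ⟨h5, _⟩ | ⟨h5, h6, _⟩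
      · rw [h5, h1]
      · rw [h2 y hy h5] at h6
        exact absurd h6.symm Bool.false_ne_true
    · rcases h with ⟨_, h6⟩ | ⟨h5, h6, h7⟩
      · rw [h6 _ h2 h1] at h3
        exact absurd h3.symm Bool.false_ne_true
      · rcases lt_trichotomy y (yb n k b (n * k)) with h8 | h8 | h8
        · rw [h7 _ h2 h8] at h3
          exact absurd h3.symm Bool.false_ne_true
        · exact h8
        · rw [h4 y hy h8] at h6
          exact absurd h6.symm Bool.false_ne_true
  · rintro rfl
    rcases yb_spec n k b (n * k) with h | ⟨h1, _, h3, h4⟩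
    · exact Or.inl h
    · exact Or.inr ⟨h1, h3, h4⟩

theorem leaf_iff (G : SimpleGraph (Fin n)) : Leaf n k G b ↔
    (PB n k G b 0 → PB n k G b 1 → PB n k G b (xb n k b (n * k)) ∧
      PB n k G b (yb n k b (n * k)) ∧ DB n k b (xb n k b (n * k)) (yb n k b (n * k))) := by
  unfold Leaf
  refine imp_congr_right fun _ => imp_congr_right fun _ => ?_
  constructor
  · rintro ⟨x, hx, y, hy, h1, h2, h3⟩
    rw [(isX_iff n k b x hx).1 h1, (isY_iff n k b y hy).1 h2] at h3
    exact h3
  · intro h
    exact ⟨_, xb_lt n k b _, _, yb_lt n k b _, (isX_iff n k b _ (xb_lt n k b _)).2 rfl,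
      (isY_iff n k b _ (yb_lt n k b _)).2 rfl, h⟩

end sel

/-! ### Contents of blocks -/

section blocks

variable (n k : ℕ) (G : SimpleGraph (Fin n))

/-- the content of a block -/
def bl (b : ℕ → Bool) (i : ℕ) : Fin n → Fin k → Bool := fun v c => colBit n k b i v c

/-- proper contents -/
def PP (A : Fin n → Fin k → Bool) : Prop :=
  (∀ v, ∃ c, A v c = true ∧ ∀ c', A v c' = true → c' = c) ∧
  ∀ v w, G.Adj v w → ∀ c, ¬ (A v c = true ∧ A w c = true)

/-- contents that differ in at most one vertex -/
def DD (A A' : Fin n → Fin k → Bool) : Prop :=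
  ∃ v < n + 1, ∀ w : Fin n, (w : ℕ) ≠ v → ∀ c, A w c = A' w c

theorem pb_iff (b : ℕ → Bool) (i : ℕ) : PB n k G b i ↔ PP n k G (bl n k b i) := by
  constructor
  · rintro ⟨h1, h2⟩
    refine ⟨fun v => ?_, fun v w hvw c => h2 v v.2 w w.2 ⟨v.2, w.2, hvw⟩ c c.2⟩
    obtain ⟨c, hc, h3, h4⟩ := h1 v v.2
    exact ⟨⟨c, hc⟩, h3, fun c' h => Fin.ext (h4 c' c'.2 h)⟩
  · rintro ⟨h1, h2⟩
    refine ⟨fun v hv => ?_, ?_⟩
    · obtain ⟨c, h3, h4⟩ := h1 ⟨v, hv⟩
      exact ⟨c, c.2, h3, fun c' hc' h => congrArg Fin.val (h4 ⟨c', hc'⟩ h)⟩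
    · rintro v hv w hw ⟨_, _, hvw⟩ c hc
      exact h2 ⟨v, hv⟩ ⟨w, hw⟩ hvw ⟨c, hc⟩

theorem db_iff (b : ℕ → Bool) (x y : ℕ) : DB n k b x y ↔ DD n k (bl n k b x) (bl n k b y) := by
  constructor
  · rintro ⟨v, hv, h⟩
    exact ⟨v, hv, fun w hw c => h w w.2 hw c c.2⟩
  · rintro ⟨v, hv, h⟩
    exact ⟨v, hv, fun w hw hwv c hc => h ⟨w, hw⟩ hwv ⟨c, hc⟩⟩

/-- Savitch's recursion -/
def RR : ℕ → (Fin n → Fin k → Bool) → (Fin n → Fin k → Bool) → Prop
  | 0, A, A' => PP n k G A ∧ PP n k G A' ∧ DD n k A A'
  | t + 1, A, A' => ∃ Γ, RR t A Γ ∧ RR t Γ A'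

theorem colBit_ovr_ne {b c : ℕ → Bool} {s a i : ℕ} (ha : a ≤ n * k + 1) (hi : i ≠ s) {v w : ℕ}
    (hv : v < n) (hw : w < k) :
    colBit n k (ovr b (s * (n * k + 1)) a c) i v w = colBit n k b i v w := by
  unfold colBit ovr
  rw [if_neg]
  have h1 : v * k + w < n * k := by
    calc v * k + w < v * k + k := by omega
      _ = (v + 1) * k := by ring
      _ ≤ n * k := Nat.mul_le_mul_right k hv
  rintro ⟨h2, h3⟩
  rcases lt_or_gt_of_ne hi with h | h
  · have : (i + 1) * (n * k + 1) ≤ s * (n * k + 1) := Nat.mul_le_mul_right _ h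
    rw [Nat.succ_mul] at this
    omega
  · have : (s + 1) * (n * k + 1) ≤ i * (n * k + 1) := Nat.mul_le_mul_right _ h
    rw [Nat.succ_mul] at this
    omega

theorem selBit_ovr_ne {b c : ℕ → Bool} {s a i : ℕ} (ha : a ≤ n * k + 1) (hi : i ≠ s) :
    selBit n k (ovr b (s * (n * k + 1)) a c) i = selBit n k b i := by
  unfold selBit ovr
  rw [if_neg]
  rintro ⟨h2, h3⟩
  rcases lt_or_gt_of_ne hi with h | h
  · have : (i + 1) * (n * k + 1) ≤ s * (n * k + 1) := Nat.mul_le_mul_right _ h
    rw [Nat.succ_mul] at this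
    omega
  · have : (s + 1) * (n * k + 1) ≤ i * (n * k + 1) := Nat.mul_le_mul_right _ h
    rw [Nat.succ_mul] at this
    omega

theorem xb_congr {b b' : ℕ → Bool} {t : ℕ} (h : ∀ i < t + 2, selBit n k b i = selBit n k b' i) :
    xb n k b t = xb n k b' t := by
  induction t with
  | zero => rfl
  | succ t ih =>
    simp only [xb]
    rw [h (t + 2) (by omega), ih fun i hi => h i (by omega)]

theorem yb_congr {b b' : ℕ → Bool} {t : ℕ} (h : ∀ i < t + 2, selBit n k b i = selBit n k b' i) :
    yb n k b t = yb n k b' t := by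
  induction t with
  | zero => rfl
  | succ t ih =>
    simp only [yb]
    rw [h (t + 2) (by omega), ih fun i hi => h i (by omega)]

/-- The blocks `s, ..., n * k + 1` carry out `t` levels of the recursion. -/
theorem tv_blocks (t : ℕ) : ∀ (s : ℕ) (b : ℕ → Bool), s + t = n * k → 
    (tv (QM n k) (leafB n k G) ((s + 2) * (n * k + 1)) (t * (n * k + 1)) b = true ↔
      (PP n k G (bl n k b 0) → PP n k G (bl n k b 1) →
        RR n k G t (bl n k b (xb n k b s)) (bl n k b (yb n k b s)))) := by
  induction t with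
  | zero =>
    intro s b hs
    rw [Nat.zero_mul]
    have hs' : s = n * k := by omega
    subst hs'
    simp only [tv, leafB, decide_eq_true_eq]
    rw [leaf_iff]
    simp only [pb_iff, db_iff, RR]
  | succ t ih =>
    intro s b hs
    have e1 : (t + 1) * (n * k + 1) = n * k + (1 + t * (n * k + 1)) := by ring
    rw [e1, tv_exists (n * k) _ _ _ (by
      intro i hi hi'
      have h1 : i % (n * k + 1) = i - (s + 2) * (n * k + 1) := by
        obtain ⟨q, rfl⟩ : ∃ q, i = (s + 2) * (n * k + 1) + q := ⟨i - (s + 2) * (n * k + 1), by omega⟩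
        rw [Nat.add_comm, Nat.add_mul_mod_self_right, Nat.mod_eq_of_lt (by omega)]
        omega
      have h2 : 2 * (n * k + 1) ≤ (s + 2) * (n * k + 1) := Nat.mul_le_mul_right _ (by omega)
      simp only [QM, decide_eq_false_iff_not, not_or]
      refine ⟨by omega, ?_⟩
      rw [h1]
      omega)]
    have e2 : ∀ c : ℕ → Bool, (tv (QM n k) (leafB n k G) ((s + 2) * (n * k + 1) + n * k)
        (1 + t * (n * k + 1)) (ovr b ((s + 2) * (n * k + 1)) (n * k) c) = true ↔
        ∀ c' : ℕ → Bool, tv (QM n k) (leafB n k G) ((s + 2) * (n * k + 1) + n * k + 1)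
          (t * (n * k + 1)) (ovr (ovr b ((s + 2) * (n * k + 1)) (n * k) c)
            ((s + 2) * (n * k + 1) + n * k) 1 c') = true) := by
      intro c
      refine tv_forall 1 _ _ _ ?_
      intro i hi hi'
      have h1 : i = n * k + (s + 2) * (n * k + 1) := by omega
      have h2 : i % (n * k + 1) = n * k := by
        rw [h1, Nat.add_mul_mod_self_right, Nat.mod_eq_of_lt (by omega)]
      simp only [QM, decide_eq_true_eq]
      exact Or.inr h2
    simp only [e2]
    have e3 : (s + 2) * (n * k + 1) + n * k + 1 = (s + 1 + 2) * (n * k + 1) := by ring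
    rw [e3]
    simp only [ih (s + 1) _ (by omega)]
    -- the combined overwrite
    have e4 : ∀ c c' : ℕ → Bool, ovr (ovr b ((s + 2) * (n * k + 1)) (n * k) c)
        ((s + 2) * (n * k + 1) + n * k) 1 c' = ovr b ((s + 2) * (n * k + 1)) (n * k + 1)
          (fun i => if i = (s + 2) * (n * k + 1) + n * k then c' i else c i) := by
      intro c c'
      funext i
      unfold ovr
      by_cases h1 : i = (s + 2) * (n * k + 1) + n * k
      · rw [if_pos (by omega), if_pos (by omega)]
        show c' i = if i = (s + 2) * (n * k + 1) + n * k then c' i else c i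
        rw [if_pos h1]
      · rw [if_neg (by omega)]
        by_cases h2 : (s + 2) * (n * k + 1) ≤ i ∧ i < (s + 2) * (n * k + 1) + n * k
        · rw [if_pos h2, if_pos (by omega)]
          show c i = if i = (s + 2) * (n * k + 1) + n * k then c' i else c i
          rw [if_neg h1]
        · rw [if_neg h2, if_neg (by omega)]
    simp only [e4]
    -- contents of the blocks after the overwrite
    have hbl : ∀ (d : ℕ → Bool) (i : ℕ), i ≠ s + 2 →
        bl n k (ovr b ((s + 2) * (n * k + 1)) (n * k + 1) d) i = bl n k b i := by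
      intro d i hi
      funext v c
      exact colBit_ovr_ne n k le_rfl hi v.2 c.2
    have hsel : ∀ (d : ℕ → Bool) (i : ℕ), i < s + 2 →
        selBit n k (ovr b ((s + 2) * (n * k + 1)) (n * k + 1) d) i = selBit n k b i := fun d i hi =>
      selBit_ovr_ne n k le_rfl (by omega)
    have hselS : ∀ (d : ℕ → Bool), selBit n k (ovr b ((s + 2) * (n * k + 1)) (n * k + 1) d) (s + 2) =
        d ((s + 2) * (n * k + 1) + n * k) := by
      intro d
      unfold selBit ovr
      rw [if_pos (by omega)]
    have hx : ∀ d : ℕ → Bool, xb n k (ovr b ((s + 2) * (n * k + 1)) (n * k + 1) d) (s + 1) =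
        if d ((s + 2) * (n * k + 1) + n * k) = true then s + 2 else xb n k b s := by
      intro d
      simp only [xb]
      rw [hselS, xb_congr n k (hsel d)]
    have hy : ∀ d : ℕ → Bool, yb n k (ovr b ((s + 2) * (n * k + 1)) (n * k + 1) d) (s + 1) =
        if d ((s + 2) * (n * k + 1) + n * k) = true then yb n k b s else s + 2 := by
      intro d
      simp only [yb]
      rw [hselS, yb_congr n k (hsel d)]
    have hxne : xb n k b s ≠ s + 2 := (xb_lt n k b s).ne
    have hyne : yb n k b s ≠ s + 2 := (yb_lt n k b s).ne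
    simp only [hbl _ 0 (by omega), hbl _ 1 (by omega), hx, hy, if_true]
    -- the content of block `s + 2`
    have hblS : ∀ c c' : ℕ → Bool, bl n k (ovr b ((s + 2) * (n * k + 1)) (n * k + 1)
        (fun i => if i = (s + 2) * (n * k + 1) + n * k then c' i else c i)) (s + 2) =
        fun (v : Fin n) (w : Fin k) => c ((s + 2) * (n * k + 1) + (v * k + w)) := by
      intro c c'
      funext v w
      have h1 : (v : ℕ) * k + w < n * k := by
        calc (v : ℕ) * k + w < v * k + k := by have := w.2; omega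
          _ = (v + 1) * k := by ring
          _ ≤ n * k := Nat.mul_le_mul_right k v.2
      unfold bl colBit ovr
      rw [if_pos (by omega)]
      show (if (s + 2) * (n * k + 1) + ((v : ℕ) * k + w) = (s + 2) * (n * k + 1) + n * k then c' _ else c _) = _
      rw [if_neg (by omega)]
    constructor
    · rintro ⟨c, hc⟩ h0 h1
      refine ⟨fun (v : Fin n) (w : Fin k) => c ((s + 2) * (n * k + 1) + (v * k + w)), ?_, ?_⟩
      · have := hc (fun _ => false) h0 h1
        rw [if_neg Bool.false_ne_true, if_neg Bool.false_ne_true, hblS, hbl _ _ hxne] at this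
        exact this
      · have := hc (fun _ => true) h0 h1
        rw [if_pos rfl, if_pos rfl, hblS, hbl _ _ hyne] at this
        exact this
    · intro h
      by_cases h01 : PP n k G (bl n k b 0) ∧ PP n k G (bl n k b 1)
      · obtain ⟨Γ, h2, h3⟩ := h h01.1 h01.2
        -- decode the content
        let c : ℕ → Bool := fun i =>
          if hq : (i - (s + 2) * (n * k + 1)) / k < n ∧ 0 < k then
            Γ ⟨(i - (s + 2) * (n * k + 1)) / k, hq.1⟩ ⟨(i - (s + 2) * (n * k + 1)) % k, Nat.mod_lt _ hq.2⟩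
          else false
        have hc : (fun (v : Fin n) (w : Fin k) => c ((s + 2) * (n * k + 1) + (v * k + w))) = Γ := by
          funext v w
          have hk : 0 < k := lt_of_le_of_lt (Nat.zero_le _) w.2
          have h4 : (s + 2) * (n * k + 1) + ((v : ℕ) * k + w) - (s + 2) * (n * k + 1) = w + v * k := by
            omega
          have h5 : ((w : ℕ) + v * k) / k = v := by
            rw [Nat.add_mul_div_right _ _ hk, Nat.div_eq_of_lt w.2, Nat.zero_add]
          have h6 : ((w : ℕ) + v * k) % k = w := by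
            rw [Nat.add_mul_mod_self_right, Nat.mod_eq_of_lt w.2]
          simp only [c, h4]
          rw [dif_pos ⟨by rw [h5]; exact v.2, hk⟩]
          exact dec_eq Γ v w h5 h6 _ _
        refine ⟨c, fun c' _ _ => ?_⟩
        by_cases hc' : c' ((s + 2) * (n * k + 1) + n * k) = true
        · rw [if_pos hc', if_pos hc', hblS, hbl _ _ hyne, hc]
          exact h3
        · rw [if_neg hc', if_neg hc', hblS, hbl _ _ hxne, hc]
          exact h2
      · exact ⟨fun _ => false, fun _ h0 h1 => absurd ⟨h0, h1⟩ h01⟩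

/-- The truth value in terms of Savitch's recursion. -/
theorem truth_iff_RR : truth ((n * k + 1) * (n * k + 2)) (QM n k) (leafB n k G) = true ↔
    ∀ A A' : Fin n → Fin k → Bool, PP n k G A → PP n k G A' → RR n k G (n * k) A A' := by
  unfold truth
  have e : (n * k + 1) * (n * k + 2) = 2 * (n * k + 1) + (n * k) * (n * k + 1) := by ring
  rw [e, tv_forall (2 * (n * k + 1)) 0 _ _ (by
    intro i _ hi
    simp only [QM, decide_eq_true_eq]
    exact Or.inl (by omega))]
  have e2 : 0 + 2 * (n * k + 1) = (0 + 2) * (n * k + 1) := by ring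
  rw [e2]
  simp only [tv_blocks n k G (n * k) 0 _ (by omega), xb, yb]
  constructor
  · intro h A A' hA hA'
    let c : ℕ → Bool := fun i =>
      if i < n * k + 1 then
        (if hq : i / k < n ∧ 0 < k then A ⟨i / k, hq.1⟩ ⟨i % k, Nat.mod_lt _ hq.2⟩ else false)
      else
        (if hq : (i - (n * k + 1)) / k < n ∧ 0 < k then
          A' ⟨(i - (n * k + 1)) / k, hq.1⟩ ⟨(i - (n * k + 1)) % k, Nat.mod_lt _ hq.2⟩ else false)
    have hvw : ∀ (v : Fin n) (w : Fin k), (v : ℕ) * k + w < n * k ∧ 0 < k ∧
        ((v : ℕ) * k + w) / k = v ∧ ((v : ℕ) * k + w) % k = w := by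
      intro v w
      have hk : 0 < k := lt_of_le_of_lt (Nat.zero_le _) w.2
      refine ⟨?_, hk, ?_, ?_⟩
      · calc (v : ℕ) * k + w < v * k + k := by have := w.2; omega
          _ = (v + 1) * k := by ring
          _ ≤ n * k := Nat.mul_le_mul_right k v.2
      · rw [Nat.add_comm, Nat.add_mul_div_right _ _ hk, Nat.div_eq_of_lt w.2, Nat.zero_add]
      · rw [Nat.add_comm, Nat.add_mul_mod_self_right, Nat.mod_eq_of_lt w.2]
    have h0 : bl n k (ovr (fun _ => false) 0 (2 * (n * k + 1)) c) 0 = A := by
      funext v w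
      obtain ⟨h1, hk, h2, h3⟩ := hvw v w
      unfold bl colBit ovr
      rw [if_pos (by omega)]
      have h4 : 0 * (n * k + 1) + ((v : ℕ) * k + w) = v * k + w := by omega
      simp only [h4, c]
      rw [if_pos (by omega), dif_pos ⟨by rw [h2]; exact v.2, hk⟩]
      exact dec_eq A v w h2 h3 _ _
    have h1 : bl n k (ovr (fun _ => false) 0 (2 * (n * k + 1)) c) 1 = A' := by
      funext v w
      obtain ⟨h1, hk, h2, h3⟩ := hvw v w
      unfold bl colBit ovr
      rw [if_pos (by omega)]
      have h4 : 1 * (n * k + 1) + ((v : ℕ) * k + w) - (n * k + 1) = v * k + w := by omega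
      simp only [c, h4]
      rw [if_neg (by omega), dif_pos ⟨by rw [h2]; exact v.2, hk⟩]
      exact dec_eq A' v w h2 h3 _ _
    have := h c
    rw [h0, h1] at this
    exact this hA hA'
  · intro h c h0 h1
    exact h _ _ h0 h1

/-! ### Reachability -/

/-- the bits of a colouring -/
def enc (α : Fin n → Fin k) : Fin n → Fin k → Bool := fun v c => decide (α v = c)

theorem pp_enc (α : Fin n → Fin k) (hα : Pr G α) : PP n k G (enc n k α) := by
  refine ⟨fun v => ⟨α v, by simp [enc], fun c' h => ?_⟩, ?_⟩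
  · simpa [enc, eq_comm] using h
  · rintro v w hvw c ⟨h1, h2⟩
    simp only [enc, decide_eq_true_eq] at h1 h2
    exact hα v w hvw (h1.trans h2.symm)

theorem exists_dec (A : Fin n → Fin k → Bool) (hA : PP n k G A) :
    ∃ α : Fin n → Fin k, Pr G α ∧ enc n k α = A := by
  obtain ⟨h1, h2⟩ := hA
  choose α hα hα' using h1
  refine ⟨α, fun v w hvw h => h2 v w hvw (α v) ⟨hα v, by rw [h]; exact hα w⟩, ?_⟩
  funext v c
  by_cases h : α v = c
  · simp only [enc, h, decide_true]
    rw [← h]; exact (hα v).symm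
  · have h3 : A v c ≠ true := fun h4 => h (hα' v c h4).symm
    simp only [enc, h, decide_false]
    simpa using h3.symm

theorem enc_inj {α β : Fin n → Fin k} (h : enc n k α = enc n k β) : α = β := by
  funext v
  have := congrFun (congrFun h v) (α v)
  simp only [enc, decide_true] at this
  exact (of_decide_eq_true this.symm).symm

theorem dd_enc (α β : Fin n → Fin k) : DD n k (enc n k α) (enc n k β) ↔
    α = β ∨ ∃ v, ∀ w, w ≠ v → α w = β w := by
  have key : ∀ w : Fin n, (∀ c, enc n k α w c = enc n k β w c) ↔ α w = β w := by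
    intro w
    constructor
    · intro h
      have := h (α w)
      simp only [enc, decide_true] at this
      exact (of_decide_eq_true this.symm).symm
    · intro h c
      simp only [enc, h]
  constructor
  · rintro ⟨v, hv, h⟩
    by_cases hvn : v < n
    · exact Or.inr ⟨⟨v, hvn⟩, fun w hw => (key w).1 (h w fun e => hw (Fin.ext e))⟩
    · exact Or.inl (funext fun w => (key w).1 (h w (by have := w.2; omega)))
  · rintro (rfl | ⟨v, h⟩)
    · exact ⟨n, by omega, fun w _ c => rfl⟩
    · exact ⟨v, by have := v.2; omega, fun w hw => (key w).2 (h w fun e => hw (congrArg Fin.val e))⟩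

theorem rch_of_RR (t : ℕ) : ∀ A A', RR n k G t A A' → ∃ α β : Fin n → Fin k,
    enc n k α = A ∧ enc n k β = A' ∧ Rch G α β := by
  induction t with
  | zero =>
    rintro A A' ⟨h1, h2, h3⟩
    obtain ⟨α, hα, rfl⟩ := exists_dec n k G A h1
    obtain ⟨β, hβ, rfl⟩ := exists_dec n k G A' h2
    refine ⟨α, β, rfl, rfl, ?_⟩
    rcases (dd_enc n k α β).1 h3 with rfl | h
    · exact Rch.refl _
    · exact Rch.single ⟨hα, hβ, h⟩
  | succ t ih =>
    rintro A A' ⟨Γ, h1, h2⟩
    obtain ⟨α, β, rfl, h3, h4⟩ := ih _ _ h1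
    obtain ⟨γ, δ, h5, rfl, h6⟩ := ih _ _ h2
    have : β = γ := enc_inj n k (h3.trans h5.symm)
    subst this
    exact ⟨α, δ, rfl, rfl, h4.trans h6⟩

theorem RR_of_seq (t : ℕ) (z : ℕ → (Fin n → Fin k)) (hz : ∀ i, Pr G (z i))
    (hs : ∀ i, z i = z (i + 1) ∨ ∃ v, ∀ w, w ≠ v → z i w = z (i + 1) w) :
    ∀ a, RR n k G t (enc n k (z a)) (enc n k (z (a + 2 ^ t))) := by
  induction t with
  | zero =>
    intro a
    exact ⟨pp_enc n k G _ (hz a), pp_enc n k G _ (hz _), (dd_enc n k _ _).2 (hs a)⟩
  | succ t ih =>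
    intro a
    refine ⟨enc n k (z (a + 2 ^ t)), ih a, ?_⟩
    have := ih (a + 2 ^ t)
    have e : a + 2 ^ t + 2 ^ t = a + 2 ^ (t + 1) := by rw [pow_succ]; ring
    rwa [e] at this

/-- The graph of colourings. -/
def CG : SimpleGraph (Fin n → Fin k) where
  Adj α β := α ≠ β ∧ St G α β
  symm := ⟨fun _ _ h => ⟨h.1.symm, h.2.symm⟩⟩
  loopless := ⟨fun _ h => h.1 rfl⟩

theorem reachable_of_rch {α β : Fin n → Fin k} (h : Rch G α β) : (CG n k G).Reachable α β := by
  induction h with
  | refl => exact SimpleGraph.Reachable.refl _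
  | @tail β γ _ h1 ih =>
    by_cases hbg : β = γ
    · rw [← hbg]; exact ih
    · exact ih.trans (SimpleGraph.Adj.reachable (show (CG n k G).Adj β γ from ⟨hbg, h1⟩))

theorem RR_of_rch {α β : Fin n → Fin k} (hα : Pr G α) (hβ : Pr G β) (h : Rch G α β) :
    RR n k G (n * k) (enc n k α) (enc n k β) := by
  classical
  obtain ⟨p, hp⟩ := (reachable_of_rch n k G h).exists_isPath
  have hlen : p.length < Fintype.card (Fin n → Fin k) := hp.length_lt
  have hcard : Fintype.card (Fin n → Fin k) ≤ 2 ^ (n * k) := by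
    have : Fintype.card (Fin n → Fin k) ≤ Fintype.card (Fin n → Fin k → Bool) :=
      Fintype.card_le_of_injective (enc n k) fun _ _ h => enc_inj n k h
    refine this.trans (le_of_eq ?_)
    simp [← pow_mul, Nat.mul_comm]
  have hz : ∀ i, Pr G (p.getVert i) := by
    intro i
    by_cases hi : i < p.length
    · exact (p.adj_getVert_succ hi).2.1
    · rw [p.getVert_of_length_le (not_lt.1 hi)]
      exact hβ
  have hs : ∀ i, p.getVert i = p.getVert (i + 1) ∨
      ∃ v, ∀ w, w ≠ v → p.getVert i w = p.getVert (i + 1) w := by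
    intro i
    by_cases hi : i < p.length
    · exact Or.inr (p.adj_getVert_succ hi).2.2.2
    · left
      rw [p.getVert_of_length_le (not_lt.1 hi), p.getVert_of_length_le (by omega)]
  have := RR_of_seq n k G (n * k) p.getVert hz hs 0
  rw [p.getVert_zero, Nat.zero_add, p.getVert_of_length_le (by omega)] at this
  exact this

/-- **Mixing is the truth of the quantified Boolean formula.** -/
theorem truth_iff_mixing : truth ((n * k + 1) * (n * k + 2)) (QM n k) (leafB n k G) = true ↔
    Mixing (Fin k) G := by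
  rw [truth_iff_RR]
  constructor
  · intro h α β hα hβ
    obtain ⟨α', β', h1, h2, h3⟩ := rch_of_RR n k G _ _ _
      (h _ _ (pp_enc n k G α hα) (pp_enc n k G β hβ))
    rwa [enc_inj n k h1, enc_inj n k h2] at h3
  · intro h A A' hA hA'
    obtain ⟨α, hα, rfl⟩ := exists_dec n k G A hA
    obtain ⟨β, hβ, rfl⟩ := exists_dec n k G A' hA'
    exact RR_of_rch n k G hα hβ (h α β hα hβ)

end blocks

end Pool.Agent.Helper73.Mix
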