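import Mathlib
import Pool.Agent.Helper69.Mix.Recol

/-!
# Mixing of joins with complete graphs
-/

set_option autoImplicit false

open Function

namespace Pool.Agent.Helper73.Mix

open Pool.Agent.Helper69.Mix

variable {V : Type}

/-! ### A universal vertex -/

/-- `G` with a universal vertex `none`. -/
def Un (G : SimpleGraph V) : SimpleGraph (Option V) where
  Adj x y := match x, y with
    | some u, some v => G.Adj u v
    | some _, none => True
    | none, some _ => True
    | none, none => False
  symm := ⟨by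
    rintro (_ | u) (_ | v) h
    · exact h
    · exact h
    · exact h
    · exact SimpleGraph.Adj.symm h⟩
  loopless := ⟨by
    rintro (_ | u) h
    · exact h
    · exact G.loopless.irrefl u h⟩

/-- Extend a colouring by the colour of the universal vertex. -/
def ext {C : Type} (a : C) (α : V → C) : Option V → C
  | none => a
  | some v => α v

theorem pr_un_iff {C : Type} {G : SimpleGraph V} {φ : Option V → C} :
    Pr (Un G) φ ↔ Pr G (φ ∘ some) ∧ ∀ v, φ (some v) ≠ φ none := by
  constructor
  · intro h
    exact ⟨fun u v huv => h (some u) (some v) huv, fun v => h (some v) none trivial⟩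
  · rintro ⟨h1, h2⟩ (_ | u) (_ | v) huv
    · exact absurd huv id
    · exact (h2 v).symm
    · exact h2 u
    · exact h1 u v huv

/-- two colourings with the same colour at the universal vertex -/
theorem same_apex {m : ℕ} {G : SimpleGraph V} (hG : Mixing (Fin (m + 1)) G) (a : Fin (m + 2))
    (α β : V → Fin (m + 2)) (hα : Pr G α) (hβ : Pr G β) (ha : ∀ v, α v ≠ a) (hb : ∀ v, β v ≠ a) :
    Rch (Un G) (ext a α) (ext a β) := by
  have hex : ∀ γ : V → Fin (m + 2), (∀ v, γ v ≠ a) → ∃ γ' : V → Fin (m + 1), γ = a.succAbove ∘ γ' := by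
    intro γ hγ
    choose γ' hγ' using fun v => Fin.exists_succAbove_eq (hγ v)
    exact ⟨γ', funext fun v => (hγ' v).symm⟩
  obtain ⟨α', rfl⟩ := hex α ha
  obtain ⟨β', rfl⟩ := hex β hb
  have hinj : Injective (a.succAbove) := Fin.succAbove_right_injective
  have hα' : Pr G α' := fun u v huv h => hα u v huv (congrArg a.succAbove h)
  have hβ' : Pr G β' := fun u v huv h => hβ u v huv (congrArg a.succAbove h)
  have h := hG α' β' hα' hβ'
  -- lift the path
  clear hβ hb hβ'
  induction h with
  | refl => exact Rch.refl _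
  | tail hr h1 ih =>
    refine ih.trans (Rch.single ⟨?_, ?_, ?_⟩)
    · exact pr_un_iff.2 ⟨h1.1.comp hinj, fun v => Fin.succAbove_ne _ _⟩
    · exact pr_un_iff.2 ⟨h1.2.1.comp hinj, fun v => Fin.succAbove_ne _ _⟩
    · obtain ⟨v, hv⟩ := h1.2.2
      refine ⟨some v, ?_⟩
      rintro (_ | w) hw
      · rfl
      · exact congrArg a.succAbove (hv w fun h => hw (by rw [h]))

/-- an injection of `m` colours into `m + 2` colours avoiding two given ones -/
theorem exists_avoid_two {m : ℕ} (a b : Fin (m + 2)) :
    ∃ j : Fin m → Fin (m + 2), Injective j ∧ ∀ i, j i ≠ a ∧ j i ≠ b := by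
  by_cases hab : a = b
  · subst hab
    refine ⟨fun i => a.succAbove i.castSucc, ?_, fun i => ⟨Fin.succAbove_ne _ _, Fin.succAbove_ne _ _⟩⟩
    exact Fin.succAbove_right_injective.comp (Fin.castSucc_injective m)
  · obtain ⟨b', hb'⟩ := Fin.exists_succAbove_eq (Ne.symm hab)
    refine ⟨fun i => a.succAbove (b'.succAbove i), ?_, fun i => ⟨Fin.succAbove_ne _ _, ?_⟩⟩
    · exact Fin.succAbove_right_injective.comp Fin.succAbove_right_injective
    · rw [← hb']
      exact fun h => Fin.succAbove_ne _ _ (Fin.succAbove_right_injective h)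

theorem mixing_un_of {m : ℕ} {G : SimpleGraph V} (δ : V → Fin m) (hδ : Pr G δ)
    (hG : Mixing (Fin (m + 1)) G) : Mixing (Fin (m + 2)) (Un G) := by
  intro φ ψ hφ hψ
  have e : ∀ χ : Option V → Fin (m + 2), χ = ext (χ none) (χ ∘ some) := by
    intro χ
    funext x
    cases x <;> rfl
  obtain ⟨h1, h2⟩ := pr_un_iff.1 hφ
  obtain ⟨h3, h4⟩ := pr_un_iff.1 hψ
  rw [e φ, e ψ]
  obtain ⟨j, hj, hjab⟩ := exists_avoid_two (φ none) (ψ none)
  have hγ : Pr G (j ∘ δ) := hδ.comp hj
  have r1 := same_apex hG (φ none) (φ ∘ some) (j ∘ δ) h1 hγ h2 fun v => (hjab _).1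
  have r3 := same_apex hG (ψ none) (j ∘ δ) (ψ ∘ some) hγ h3 (fun v => (hjab _).2) h4
  refine r1.trans (Rch.trans (Rch.single ⟨?_, ?_, none, ?_⟩) r3)
  · exact pr_un_iff.2 ⟨hγ, fun v => (hjab _).1⟩
  · exact pr_un_iff.2 ⟨hγ, fun v => (hjab _).2⟩
  · rintro (_ | w) hw
    · exact absurd rfl hw
    · rfl

/-- tracking a path in the presence of the universal vertex -/
theorem track {m : ℕ} {G : SimpleGraph V} {φ ψ : Option V → Fin (m + 2)}
    (h : Rch (Un G) φ ψ) (π₀ : Fin (m + 2) → Fin (m + 1)) (hπ₀ : Set.InjOn π₀ {c | c ≠ φ none}) :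
    ∃ π : Fin (m + 2) → Fin (m + 1), Set.InjOn π {c | c ≠ ψ none} ∧
      Rch G (π₀ ∘ φ ∘ some) (π ∘ ψ ∘ some) := by
  classical
  induction h with
  | refl => exact ⟨π₀, hπ₀, Rch.refl _⟩
  | @tail χ ψ _ h1 ih =>
    obtain ⟨π, hπ, hr⟩ := ih
    obtain ⟨hχ, hψ, x, hx⟩ := h1
    obtain ⟨hχ1, hχ2⟩ := pr_un_iff.1 hχ
    obtain ⟨hψ1, hψ2⟩ := pr_un_iff.1 hψ
    have hpr : ∀ (π : Fin (m + 2) → Fin (m + 1)) (θ : Option V → Fin (m + 2)),
        Set.InjOn π {c | c ≠ θ none} → Pr (Un G) θ → Pr G (π ∘ θ ∘ some) := by
      intro π θ h1 h2 u v huv heq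
      obtain ⟨h3, h4⟩ := pr_un_iff.1 h2
      exact h3 u v huv (h1 (h4 u) (h4 v) heq)
    cases x with
    | none =>
      -- the universal vertex moves
      have hsome : ∀ v, χ (some v) = ψ (some v) := fun v => hx (some v) (by simp)
      refine ⟨fun c => if c = χ none then π (ψ none) else π c, ?_, ?_⟩
      · intro c hc c' hc' heq
        have hc1 : c ≠ ψ none := hc
        have hc2 : c' ≠ ψ none := hc'
        by_cases h3 : c = χ none
        · by_cases h4 : c' = χ none
          · rw [h3, h4]
          · simp only [if_pos h3, if_neg h4] at heq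
            have h5 : ψ none ≠ χ none := fun h => hc1 (h3.trans h.symm)
            exact absurd (hπ (show ψ none ∈ {c | c ≠ χ none} from h5) h4 heq).symm hc2
        · by_cases h4 : c' = χ none
          · simp only [if_neg h3, if_pos h4] at heq
            have h5 : ψ none ≠ χ none := fun h => hc2 (h4.trans h.symm)
            exact absurd (hπ h3 (show ψ none ∈ {c | c ≠ χ none} from h5) heq) hc1
          · simp only [if_neg h3, if_neg h4] at heq
            exact hπ h3 h4 heq
      · have e : (fun c => if c = χ none then π (ψ none) else π c) ∘ ψ ∘ some = π ∘ χ ∘ some := by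
          funext v
          simp only [Function.comp]
          rw [← hsome v, if_neg (hχ2 v)]
        rw [e]
        exact hr
    | some x =>
      have hnone : χ none = ψ none := hx none (by simp)
      rw [hnone] at hπ
      refine ⟨π, hπ, hr.trans (Rch.single ⟨hpr _ _ (by rw [hnone]; exact hπ) hχ, hpr _ _ hπ hψ, x, ?_⟩)⟩
      intro w hw
      simp only [Function.comp]
      rw [hx (some w) (fun h => hw (Option.some_injective _ h))]

/-- changing a whole colour class -/
theorem rch_class [Finite V] {C : Type} {G : SimpleGraph V} (α β : V → C) (c : C)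
    (hα : Pr G α) (hβ : Pr G β) (h : ∀ v, β v = α v ∨ β v = c) (hc : ∀ v, α v ≠ c) :
    Rch G α β := by
  classical
  have := Fintype.ofFinite V
  -- all mixed colourings are proper
  have hmix : ∀ S : Finset V, Pr G (fun v => if v ∈ S then β v else α v) := by
    intro S u v huv
    by_cases hu : u ∈ S <;> by_cases hv : v ∈ S
    · simp only [if_pos hu, if_pos hv]; exact hβ u v huv
    · simp only [if_pos hu, if_neg hv]
      rcases h u with h1 | h1
      · rw [h1]; exact hα u v huv
      · rw [h1]; exact (hc v).symm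
    · simp only [if_neg hu, if_pos hv]
      rcases h v with h1 | h1
      · rw [h1]; exact hα u v huv
      · rw [h1]; exact hc u
    · simp only [if_neg hu, if_neg hv]; exact hα u v huv
  have hS : ∀ S : Finset V, Rch G α (fun v => if v ∈ S then β v else α v) := by
    intro S
    induction S using Finset.induction_on with
    | empty => simp only [Finset.notMem_empty, if_false]; exact Rch.refl _
    | insert a S ha ih =>
      refine ih.trans (Rch.single ⟨hmix _, hmix _, a, fun w hw => ?_⟩)
      simp only [Finset.mem_insert, hw, false_or]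
  have := hS Finset.univ
  simpa using this

theorem rch_perm [Finite V] {m : ℕ} {G : SimpleGraph V} (δ : V → Fin m) (hδ : Pr G δ)
    (σ : Equiv.Perm (Fin (m + 1))) : Rch G (Fin.castSucc ∘ δ) (σ ∘ Fin.castSucc ∘ δ) := by
  have hι : Pr G (Fin.castSucc ∘ δ) := hδ.comp (Fin.castSucc_injective m)
  -- swaps with the last colour
  have hl : ∀ x : Fin (m + 1), Rch G (Fin.castSucc ∘ δ) (Equiv.swap x (Fin.last m) ∘ Fin.castSucc ∘ δ) := by
    intro x
    refine rch_class _ _ (Fin.last m) hι (hι.comp (Equiv.injective _)) ?_ ?_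
    · intro v
      simp only [Function.comp]
      by_cases h : (δ v).castSucc = x
      · right
        rw [h, Equiv.swap_apply_left]
      · left
        rw [Equiv.swap_apply_of_ne_of_ne h (Fin.castSucc_lt_last _).ne]
    · intro v
      exact (Fin.castSucc_lt_last _).ne
  have hsw : ∀ x y : Fin (m + 1), Rch G (Fin.castSucc ∘ δ) (Equiv.swap x y ∘ Fin.castSucc ∘ δ) := by
    intro x y
    by_cases hxy : x = y
    · rw [hxy, Equiv.swap_self]
      exact Rch.refl _
    by_cases hy : y = Fin.last m
    · rw [hy]; exact hl x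
    by_cases hx : x = Fin.last m
    · rw [hx, Equiv.swap_comm]; exact hl y
    -- swap x y = swap x l * swap y l * swap x l
    have e : Equiv.swap x y = Equiv.swap x (Fin.last m) * (Equiv.swap y (Fin.last m) *
        Equiv.swap x (Fin.last m)) := by
      rw [← mul_assoc, Equiv.swap_comm x (Fin.last m)]
      exact (Equiv.swap_mul_swap_mul_swap (x := y) (y := Fin.last m) (z := x) hy (Ne.symm hxy)).symm
    rw [e]
    have r1 := hl x
    have r2 := (hl y).comp (Equiv.injective (Equiv.swap x (Fin.last m)))
    have r3 := ((hl x).comp (Equiv.injective (Equiv.swap y (Fin.last m)))).comp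
      (Equiv.injective (Equiv.swap x (Fin.last m)))
    exact r1.trans (r2.trans r3)
  induction σ using Equiv.Perm.swap_induction_on with
  | one => exact Rch.refl _
  | swap_mul f x y hxy ih =>
    exact (hsw x y).trans (ih.comp (Equiv.injective (Equiv.swap x y)))

theorem mixing_of_un [Finite V] {m : ℕ} {G : SimpleGraph V} (δ : V → Fin m) (hδ : Pr G δ)
    (hG : Mixing (Fin (m + 2)) (Un G)) : Mixing (Fin (m + 1)) G := by
  classical
  -- every colouring is connected to the standard one
  have key : ∀ α : V → Fin (m + 1), Pr G α → Rch G α (Fin.castSucc ∘ δ) := by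
    intro α hα
    let a : Fin (m + 2) := Fin.last (m + 1)
    have hinj : Injective (a.succAbove) := Fin.succAbove_right_injective
    have hext : ∀ γ : V → Fin (m + 1), Pr G γ → Pr (Un G) (ext a (a.succAbove ∘ γ)) := fun γ hγ =>
      pr_un_iff.2 ⟨hγ.comp hinj, fun v => Fin.succAbove_ne _ _⟩
    let π₀ : Fin (m + 2) → Fin (m + 1) := Function.invFun a.succAbove
    have hπ₀ : ∀ c, π₀ (a.succAbove c) = c := Function.leftInverse_invFun hinj
    have hι : Pr G (Fin.castSucc ∘ δ) := hδ.comp (Fin.castSucc_injective m)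
    obtain ⟨π, hπ, hr⟩ := track (hG _ _ (hext α hα) (hext _ hι)) π₀ (by
      intro c hc c' hc' h
      obtain ⟨d, rfl⟩ := Fin.exists_succAbove_eq (show c ≠ a from hc)
      obtain ⟨d', rfl⟩ := Fin.exists_succAbove_eq (show c' ≠ a from hc')
      rw [hπ₀, hπ₀] at h
      rw [h])
    have e1 : π₀ ∘ ext a (a.succAbove ∘ α) ∘ some = α := by
      funext v
      exact hπ₀ _
    have hσ : Injective (π ∘ a.succAbove) := by
      intro c c' h
      exact hinj (hπ (Fin.succAbove_ne _ _) (Fin.succAbove_ne _ _) h)
    let σ : Equiv.Perm (Fin (m + 1)) := Equiv.ofBijective _ (Finite.injective_iff_bijective.1 hσ)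
    have e2 : π ∘ ext a (a.succAbove ∘ Fin.castSucc ∘ δ) ∘ some = σ ∘ Fin.castSucc ∘ δ := rfl
    rw [e1, e2] at hr
    exact hr.trans (rch_perm δ hδ σ).symm
  intro α β hα hβ
  exact (key α hα).trans (key β hβ).symm

/-! ### The join with `K_r` -/

/-- The join of `G` with the complete graph on `r` vertices. -/
def J (r : ℕ) (G : SimpleGraph V) : SimpleGraph (V ⊕ Fin r) where
  Adj x y := match x, y with
    | Sum.inl u, Sum.inl v => G.Adj u v
    | Sum.inl _, Sum.inr _ => True
    | Sum.inr _, Sum.inl _ => True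
    | Sum.inr a, Sum.inr b => a ≠ b
  symm := ⟨by
    rintro (u | a) (v | b) h
    · exact SimpleGraph.Adj.symm h
    · exact h
    · exact h
    · exact Ne.symm h⟩
  loopless := ⟨by
    rintro (u | a) h
    · exact G.loopless.irrefl u h
    · exact h rfl⟩

theorem pr_J {r s : ℕ} {G : SimpleGraph V} (δ : V → Fin s) (hδ : Pr G δ) :
    Pr (J r G) (Sum.elim (Fin.castAdd r ∘ δ) (Fin.natAdd s)) := by
  rintro (u | a) (v | b) h
  · exact fun e => hδ u v h (Fin.castAdd_injective _ _ e)
  · intro e
    have := congrArg Fin.val e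
    simp only [Sum.elim_inl, Sum.elim_inr, Function.comp, Fin.val_castAdd, Fin.val_natAdd] at this
    have := (δ u).2
    omega
  · intro e
    have := congrArg Fin.val e
    simp only [Sum.elim_inl, Sum.elim_inr, Function.comp, Fin.val_castAdd, Fin.val_natAdd] at this
    have := (δ v).2
    omega
  · intro e
    have := congrArg Fin.val e
    simp only [Sum.elim_inr, Fin.val_natAdd] at this
    exact h (Fin.ext (by omega))

/-- adding one more vertex to the complete graph -/
def isoSucc (r : ℕ) (G : SimpleGraph V) : J (r + 1) G ≃g Un (J r G) where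
  toFun := Sum.elim (fun v => some (Sum.inl v))
    (fun a => if h : (a : ℕ) < r then some (Sum.inr ⟨a, h⟩) else none)
  invFun x := match x with
    | none => Sum.inr (Fin.last r)
    | some (Sum.inl v) => Sum.inl v
    | some (Sum.inr a) => Sum.inr a.castSucc
  left_inv := by
    rintro (v | a)
    · rfl
    · by_cases h : (a : ℕ) < r
      · simp only [Sum.elim_inr, dif_pos h]
        rfl
      · simp only [Sum.elim_inr, dif_neg h]
        have : a = Fin.last r := Fin.ext (by have := a.2; simp only [Fin.val_last]; omega)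
        rw [this]
  right_inv := by
    rintro (_ | v | a)
    · simp
    · rfl
    · simp
  map_rel_iff' := by
    rintro (u | a) (v | b)
    · exact Iff.rfl
    · by_cases h : (b : ℕ) < r
      · simp only [Equiv.coe_fn_mk, Sum.elim_inl, Sum.elim_inr, dif_pos h]
        exact Iff.rfl
      · simp only [Equiv.coe_fn_mk, Sum.elim_inl, Sum.elim_inr, dif_neg h]
        exact Iff.rfl
    · by_cases h : (a : ℕ) < r
      · simp only [Equiv.coe_fn_mk, Sum.elim_inl, Sum.elim_inr, dif_pos h]
        exact Iff.rfl
      · simp only [Equiv.coe_fn_mk, Sum.elim_inl, Sum.elim_inr, dif_neg h]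
        exact Iff.rfl
    · by_cases ha : (a : ℕ) < r <;> by_cases hb : (b : ℕ) < r
      · simp only [Equiv.coe_fn_mk, Sum.elim_inr, dif_pos ha, dif_pos hb]
        show (⟨a, ha⟩ : Fin r) ≠ ⟨b, hb⟩ ↔ a ≠ b
        simp [Fin.ext_iff]
      · simp only [Equiv.coe_fn_mk, Sum.elim_inr, dif_pos ha, dif_neg hb]
        show True ↔ a ≠ b
        simp only [true_iff]
        rintro rfl
        exact hb ha
      · simp only [Equiv.coe_fn_mk, Sum.elim_inr, dif_neg ha, dif_pos hb]
        show True ↔ a ≠ b
        simp only [true_iff]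
        rintro rfl
        exact ha hb
      · simp only [Equiv.coe_fn_mk, Sum.elim_inr, dif_neg ha, dif_neg hb]
        show False ↔ a ≠ b
        simp only [false_iff, not_not]
        exact Fin.ext (by have := a.2; have := b.2; omega)

def isoZero (G : SimpleGraph V) : J 0 G ≃g G where
  toFun := Sum.elim id (fun a => a.elim0)
  invFun := Sum.inl
  left_inv := by
    rintro (v | a)
    · rfl
    · exact a.elim0
  right_inv := fun _ => rfl
  map_rel_iff' := by
    rintro (u | a) (v | b)
    · exact Iff.rfl
    · exact b.elim0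
    · exact a.elim0
    · exact a.elim0

theorem mixing_J_succ [Finite V] {r s : ℕ} {G : SimpleGraph V} (δ : V → Fin s) (hδ : Pr G δ) :
    Mixing (Fin (s + r + 1)) (J r G) ↔ Mixing (Fin (s + 1)) G := by
  induction r with
  | zero => exact ⟨fun h => h.iso (isoZero G), fun h => h.iso (isoZero G).symm⟩
  | succ r ih =>
    rw [← ih]
    have hpr := pr_J (r := r) δ hδ
    constructor
    · intro h
      exact mixing_of_un _ hpr (h.iso (isoSucc r G))
    · intro h
      exact (mixing_un_of _ hpr h).iso (isoSucc r G).symm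

/-- For a `3`-colourable graph, joining with `K_r` turns `4`-mixing into `(4 + r)`-mixing. -/
theorem mixing_J [Finite V] {r : ℕ} {G : SimpleGraph V} (hG : ∃ δ : V → Fin 3, Pr G δ) :
    Mixing (Fin (4 + r)) (J r G) ↔ Mixing (Fin 4) G := by
  obtain ⟨δ, hδ⟩ := hG
  have h := mixing_J_succ (r := r) δ hδ
  have e : 4 + r = 3 + r + 1 := by omega
  rw [e]
  exact h

end Pool.Agent.Helper73.Mix
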